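import Mathlib

/-!
# The genus of an almost symmetric numerical semigroup  (task T2)
-/

set_option autoImplicit false

namespace Pool.Agent.NG5

/-- The Frobenius number is a pseudo-Frobenius number. -/
theorem sSup_pf (S : AddSubmonoid ℕ) (hfin : ((S : Set ℕ)ᶜ).Finite)
    (hne : ((S : Set ℕ)ᶜ).Nonempty) :
    (sSup ((S : Set ℕ)ᶜ) ∉ S ∧ ∀ s ∈ S, s ≠ 0 → sSup ((S : Set ℕ)ᶜ) + s ∈ S) ∧
    ∀ n, sSup ((S : Set ℕ)ᶜ) < n → n ∈ S := by
  have hmem : sSup ((S : Set ℕ)ᶜ) ∈ ((S : Set ℕ)ᶜ) := Nat.sSup_mem hne hfin.bddAbove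
  have hlt : ∀ n, sSup ((S : Set ℕ)ᶜ) < n → n ∈ S := by
    intro n hn
    by_contra h
    have : n ≤ sSup ((S : Set ℕ)ᶜ) := le_csSup hfin.bddAbove (by simpa using h)
    omega
  refine ⟨⟨by simpa using hmem, ?_⟩, hlt⟩
  intro s _ hs0
  exact hlt _ (by omega)

/-- Write `F = sSup Sᶜ`, `g = |Sᶜ|`, `t = |PF|`. Let `L` be the set of gaps `x ≤ F` with `F - x` a gap.
`L = PF \ {F}`: the inclusion `⊇` is `hAS`. For `x ∈ L`, choose the largest gap `q` of the form
`x + s` with `s ∈ S` (the gaps are finite); then `q ∈ PF`. If `q = F` then `F - x = s ∈ S`, a contradiction. So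
`F - q ∈ PF`, and `F - x = (F - q) + s`, which is in `S` if `s ≠ 0`, a contradiction. So `s = 0` and
`x = q ∈ PF`, `x ≠ F`. The numbers `n ≤ F` with `n ∈ S` are mapped by `n ↦ F - n` bijectively to the gaps not
in `L` (`F - n` is a gap since `F = n + (F - n)` is one). So `g = (F + 1 - g) + (t - 1)`. -/
theorem genus (S : AddSubmonoid ℕ) (hfin : ((S : Set ℕ)ᶜ).Finite) (hne : ((S : Set ℕ)ᶜ).Nonempty)
    (hAS : ∀ f : ℕ, (f ∉ S ∧ ∀ s ∈ S, s ≠ 0 → f + s ∈ S) → f ≠ sSup ((S : Set ℕ)ᶜ) →
      f ≤ sSup ((S : Set ℕ)ᶜ) ∧ sSup ((S : Set ℕ)ᶜ) - f ∉ S ∧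
        ∀ s ∈ S, s ≠ 0 → (sSup ((S : Set ℕ)ᶜ) - f) + s ∈ S) :
    2 * Set.ncard ((S : Set ℕ)ᶜ) =
      sSup ((S : Set ℕ)ᶜ) + Set.ncard {f : ℕ | f ∉ S ∧ ∀ s ∈ S, s ≠ 0 → f + s ∈ S} := by
  classical
  obtain ⟨⟨hF, hFs⟩, hlt⟩ := sSup_pf S hfin hne
  have hle : ∀ n, n ∉ S → n ≤ sSup ((S : Set ℕ)ᶜ) := by
    intro n hn
    by_contra h
    exact hn (hlt n (by omega))
  generalize hFd : sSup ((S : Set ℕ)ᶜ) = F at *
  -- the set of gaps
  have hC : ((S : Set ℕ)ᶜ) = ((Finset.range (F + 1)).filter (fun n => n ∉ S) : Finset ℕ) := by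
    ext n
    simp only [Set.mem_compl_iff, SetLike.mem_coe, Finset.coe_filter, Finset.mem_range,
      Set.mem_ofPred_eq]
    constructor
    · intro h
      exact ⟨by have := hle n h; omega, h⟩
    · intro h
      exact h.2
  have hPF : {f : ℕ | f ∉ S ∧ ∀ s ∈ S, s ≠ 0 → f + s ∈ S} =
      (insert F ((Finset.range (F + 1)).filter (fun n => n ∉ S ∧ F - n ∉ S)) : Finset ℕ) := by
    ext x
    simp only [Set.mem_ofPred_eq, Finset.coe_insert, Finset.coe_filter, Finset.mem_range,
      Set.mem_insert_iff]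
    constructor
    · intro h
      by_cases hx : x = F
      · exact Or.inl hx
      · right
        have := hAS x h hx
        exact ⟨by omega, h.1, this.2.1⟩
    · rintro (h | ⟨hx1, hx2, hx3⟩)
      · subst h
        exact ⟨hF, hFs⟩
      · -- the largest gap of the form x + s
        refine ⟨hx2, ?_⟩
        intro s hs hs0
        by_contra hcon
        -- choose the largest gap q = x + s
        let T : Finset ℕ := (Finset.range (F + 1)).filter (fun t => t ∈ S ∧ x + t ∉ S)
        have hsT : s ∈ T := by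
          have := hle _ hcon
          simp only [T, Finset.mem_filter, Finset.mem_range]
          exact ⟨by omega, hs, hcon⟩
        obtain ⟨m, hmT, hmax⟩ := T.exists_max_image id ⟨s, hsT⟩
        simp only [T, Finset.mem_filter, Finset.mem_range] at hmT
        have hsm : s ≤ m := hmax s hsT
        have hm0 : m ≠ 0 := by omega
        have hq : x + m ∉ S ∧ ∀ r ∈ S, r ≠ 0 → (x + m) + r ∈ S := by
          refine ⟨hmT.2.2, ?_⟩
          intro r hr hr0
          by_contra hc
          have h1 : m + r ∈ T := by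
            simp only [T, Finset.mem_filter, Finset.mem_range]
            have := hle _ hc
            refine ⟨by omega, S.add_mem hmT.2.1 hr, ?_⟩
            rwa [← add_assoc]
          have h2 : m + r ≤ m := hmax _ h1
          omega
        by_cases hqF : x + m = F
        · apply hx3
          have : F - x = m := by omega
          rw [this]
          exact hmT.2.1
        · have h3 := hAS _ hq hqF
          apply hx3
          have h4 : F - x = (F - (x + m)) + m := by omega
          rw [h4]
          exact h3.2.2 m hmT.2.1 hm0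
  rw [hC, hPF, Set.ncard_coe_finset, Set.ncard_coe_finset]
  have hFL : F ∉ ((Finset.range (F + 1)).filter (fun n => n ∉ S ∧ F - n ∉ S)) := by
    simp [S.zero_mem]
  rw [Finset.card_insert_of_notMem hFL]
  have h1 : ((Finset.range (F + 1)).filter (fun n => n ∈ S)).card +
      ((Finset.range (F + 1)).filter (fun n => n ∉ S)).card = F + 1 := by
    rw [Finset.card_filter_add_card_filter_not]
    simp
  have h2 : ((Finset.range (F + 1)).filter (fun n => n ∈ S)).card =
      ((Finset.range (F + 1)).filter (fun n => n ∉ S ∧ F - n ∈ S)).card := by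
    apply Finset.card_bij (fun n _ => F - n)
    · intro n hn
      simp only [Finset.mem_filter, Finset.mem_range] at hn ⊢
      refine ⟨by omega, ?_, ?_⟩
      · intro hc
        apply hF
        have : F = n + (F - n) := by omega
        rw [this]
        exact S.add_mem hn.2 hc
      · have : F - (F - n) = n := by omega
        rw [this]
        exact hn.2
    · intro a ha b hb hab
      simp only [Finset.mem_filter, Finset.mem_range] at ha hb
      omega
    · intro b hb
      simp only [Finset.mem_filter, Finset.mem_range] at hb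
      refine ⟨F - b, ?_, by omega⟩
      simp only [Finset.mem_filter, Finset.mem_range]
      exact ⟨by omega, hb.2.2⟩
  have h3 : ((Finset.range (F + 1)).filter (fun n => n ∉ S ∧ F - n ∈ S)).card +
      ((Finset.range (F + 1)).filter (fun n => n ∉ S ∧ F - n ∉ S)).card =
      ((Finset.range (F + 1)).filter (fun n => n ∉ S)).card := by
    have e1 : ((Finset.range (F + 1)).filter (fun n => n ∉ S ∧ F - n ∈ S)) =
        ((Finset.range (F + 1)).filter (fun n => n ∉ S)).filter (fun n => F - n ∈ S) := by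
      rw [Finset.filter_filter]
    have e2 : ((Finset.range (F + 1)).filter (fun n => n ∉ S ∧ F - n ∉ S)) =
        ((Finset.range (F + 1)).filter (fun n => n ∉ S)).filter (fun n => ¬ (F - n ∈ S)) := by
      rw [Finset.filter_filter]
    rw [e1, e2, Finset.card_filter_add_card_filter_not]
  omega

end Pool.Agent.NG5
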