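import Pool.Agent.NG5.Mem

/-!
# Facts on nearly Gorenstein semigroups with a nonconstant choice  (task T4)
-/

set_option autoImplicit false

namespace Pool.Agent.NG5

open Finset

/-- The situation: five different pseudo-Frobenius numbers `q k`, and for each generator `g i` one of them,
`q (idx i)`, such that all `q (idx i) + g i - q k` are members. -/
structure NGData (g : Fin 5 → ℕ) (q : Fin 5 → ℤ) (idx : Fin 5 → Fin 5) : Prop where
  min : MinGen g
  inj : Function.Injective q
  pf : ∀ k, IsPF g (q k)
  ng : ∀ i k, Mem g (q (idx i) + g i - q k)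

variable {g : Fin 5 → ℕ} {q : Fin 5 → ℤ} {idx : Fin 5 → Fin 5}

/-- Write `w i = q (idx i) + g i`. If `w i - w j = s` is a member then `s = 0`.
If `idx i = idx j` then `g i = g j + s`, so `s = 0` by `gen_irred`. Otherwise suppose `s ≠ 0`.
`w j - q (idx i) = g i - s` is a member by `ng`, so `g i = s + (g i - s)` gives `s = g i` by `gen_irred`,
so `q (idx i) = q (idx j) + g j` is a member, a contradiction. -/
theorem NGData.w_eq (D : NGData g q idx) {i j : Fin 5}
    (h : Mem g ((q (idx i) + g i) - (q (idx j) + g j))) : q (idx i) + g i = q (idx j) + g j := by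
  by_contra hne
  have h1 : Mem g ((g i : ℤ) - ((q (idx i) + g i) - (q (idx j) + g j))) := by
    have h2 := D.ng j (idx i)
    have e : (g i : ℤ) - ((q (idx i) + g i) - (q (idx j) + g j)) = q (idx j) + g j - q (idx i) := by ring
    rw [e]; exact h2
  rcases gen_irred D.min (i := i) h h1 (by ring) with h0 | h0
  · exact hne (by linarith)
  · have h3 : q (idx i) = q (idx j) + g j := by linarith
    apply (D.pf (idx i)).nmem
    rw [h3]
    exact (D.pf (idx j)).add j

/-- `w i - q k` has no factorization that contains `j`, if `w j = w i` and `idx j ≠ k` (`w i - q k - g j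
= q (idx j) - q k`), or if `idx j = k` and `w j ≠ w i` (`w i - q k - g j = w i - w j`). -/
theorem NGData.supp (D : NGData g q idx) {i j k : Fin 5}
    (h : (q (idx j) + g j = q (idx i) + g i ∧ idx j ≠ k) ∨
      (idx j = k ∧ q (idx j) + g j ≠ q (idx i) + g i)) :
    ¬ Mem g (q (idx i) + g i - q k - g j) := by
  intro hm
  rcases h with ⟨h1, h2⟩ | ⟨h1, h2⟩
  · have e : q (idx i) + g i - q k - g j = q (idx j) - q k := by rw [← h1]; ring
    rw [e] at hm
    exact pf_diff (D.pf (idx j)) (D.pf k) (fun he => h2 (D.inj he)) hm
  · have e : q (idx i) + g i - q k - g j = (q (idx i) + g i) - (q (idx j) + g j) := by rw [← h1]; ring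
    rw [e] at hm
    exact h2 (D.w_eq hm).symm

/-- If `idx` is not constant then `w i = w j` for some `i, j` with `idx i ≠ idx j`.
Suppose not. Let `g m` be the smallest generator, and `p i = q (idx i)`. Among the `j` with `idx j ≠ idx m` let
`g j` be the smallest one. `a = w j - p m` is a member, and it is not `0` (else `p m = p j + g j` is a member).
Also `p j < p m`: `w m - p j` is a nonzero member; no factorization contains `m` or `j`
(`w m - p j - g m = p m - p j`, `w m - p j - g j = w m - w j ≠ 0` with `w_eq`), so it is `> g m`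
(it is at least `g i` for some `i ≠ m`, and `g i > g m`). So `a < g j`.
A factorization of `a` contains no `i` with `idx i = idx m` (`a - g i = w j - w i`, and
`idx j ≠ idx i`, so `w j ≠ w i` by assumption, use `w_eq`), and no `i` with `idx i ≠ idx m` (there `g i ≥ g j > a`).
So `a = 0`, a contradiction. -/
theorem NGData.exists_eq (D : NGData g q idx) (h : ∃ i j, idx i ≠ idx j) :
    ∃ i j, idx i ≠ idx j ∧ q (idx i) + g i = q (idx j) + g j := by
  by_contra hcon
  push Not at hcon
  obtain ⟨m, hm⟩ := exists_min_gen g
  have hne : (Finset.univ.filter (fun j : Fin 5 => idx j ≠ idx m)).Nonempty := by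
    obtain ⟨i, j, hij⟩ := h
    by_cases hi : idx i = idx m
    · exact ⟨j, by simp only [Finset.mem_filter, Finset.mem_univ, true_and]; rw [← hi]; exact fun he => hij he.symm⟩
    · exact ⟨i, by simp only [Finset.mem_filter, Finset.mem_univ, true_and]; exact hi⟩
  obtain ⟨j, hj, hjmin⟩ := Finset.exists_min_image _ (fun j => g j) hne
  simp only [Finset.mem_filter, Finset.mem_univ, true_and] at hj hjmin
  -- step A
  have hA : q (idx j) < q (idx m) := by
    have h1 := D.ng m (idx j)
    rcases mem_cases h1 with h0 | ⟨i, hi⟩
    · exfalso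
      apply (D.pf (idx j)).nmem
      have e : q (idx j) = q (idx m) + g m := by linarith
      rw [e]; exact (D.pf (idx m)).add m
    · have him : i ≠ m := by
        rintro rfl
        exact D.supp (i := i) (j := i) (k := idx j) (Or.inl ⟨rfl, fun he => hj he.symm⟩) hi
      have h2 := mem_nonneg hi
      have h3 : g m < g i := lt_of_le_of_ne (hm i) (fun he => him ((gen_inj D.min) he).symm)
      have h4 : (g m : ℤ) < g i := by exact_mod_cast h3
      linarith
  -- step B
  have hB := D.ng j (idx m)
  have h0 : q (idx j) + g j - q (idx m) = 0 := by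
    apply mem_small hB
    intro i hi
    by_cases him : idx i = idx m
    · exfalso
      refine D.supp (i := j) (j := i) (k := idx m) (Or.inr ⟨him, ?_⟩) hi
      exact hcon i j (by rw [him]; exact fun he => hj he.symm)
    · have h5 : g j ≤ g i := hjmin i him
      have h6 : (g j : ℤ) ≤ g i := by exact_mod_cast h5
      linarith
  apply (D.pf (idx m)).nmem
  have e : q (idx m) = q (idx j) + g j := by linarith
  rw [e]; exact (D.pf (idx j)).add j

/-- `w i = p i + g i` cannot hold with one value of `w` for all `i`: the nonzero member `w` has a generator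
`g j` in a factorization, and `w - g j = p j` is not a member. -/
theorem NGData.not_all_eq (D : NGData g q idx) : ∃ i j, q (idx i) + g i ≠ q (idx j) + g j := by
  by_contra hcon
  push Not at hcon
  have h1 := (D.pf (idx 0)).add 0
  rcases mem_cases h1 with h0 | ⟨j, hj⟩
  · have h2 := (D.pf (idx 0)).pos
    have h3 : (0 : ℤ) ≤ g 0 := Int.natCast_nonneg _
    linarith
  · apply (D.pf (idx j)).nmem
    have e : q (idx j) = q (idx 0) + g 0 - g j := by rw [hcon 0 j]; ring
    rw [e]; exact hj

end Pool.Agent.NG5
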