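import Pool.Agent.NG5.Mem

/-!
# Pairs of pseudo-Frobenius numbers, the constant case and the `4+1` case  (task T3)
-/

set_option autoImplicit false

namespace Pool.Agent.NG5

open Finset

theorem exists_ne_conj {B : Finset ℤ} (F : ℤ) (hB : 2 ≤ B.card) : ∃ b ∈ B, b ≠ F - b := by
  obtain ⟨a, ha, b, hb, hab⟩ := Finset.one_lt_card.1 hB
  by_cases h1 : a = F - a
  · refine ⟨b, hb, fun h2 => hab ?_⟩
    omega
  · exact ⟨a, ha, h1⟩

theorem card_erase_two (A : Finset ℤ) (x y : ℤ) : A.card ≤ ((A.erase x).erase y).card + 2 := by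
  have h1 := Finset.pred_card_le_card_erase (s := A) (a := x)
  have h2 := Finset.pred_card_le_card_erase (s := A.erase x) (a := y)
  omega

/-- Two conjugate pairs and a third one which may be self-conjugate: the involution `a ↦ F - a` has at most
one fixed point on `A`. If it has one, take it as `k`; the other `≥ 4` elements form pairs. If it has none,
`A` has even cardinality `≥ 6`. -/
theorem three_pairs (A : Finset ℤ) (F : ℤ) (hA : ∀ a ∈ A, F - a ∈ A) (hc : 5 ≤ A.card) :
    ∃ f ∈ A, ∃ h ∈ A, ∃ k ∈ A, f ≠ F - f ∧ h ≠ F - h ∧ h ≠ f ∧ h ≠ F - f ∧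
      k ≠ f ∧ k ≠ F - f ∧ k ≠ h ∧ k ≠ F - h := by
  obtain ⟨f, hf, hff⟩ := exists_ne_conj (B := A) F (by omega)
  have h1 := card_erase_two A f (F - f)
  obtain ⟨h, hh, hhh⟩ := exists_ne_conj (B := (A.erase f).erase (F - f)) F (by omega)
  have h2 := card_erase_two ((A.erase f).erase (F - f)) h (F - h)
  have h3 : 0 < ((((A.erase f).erase (F - f)).erase h).erase (F - h)).card := by omega
  obtain ⟨k, hk⟩ := Finset.card_pos.1 h3
  simp only [Finset.mem_erase] at hh hk
  exact ⟨f, hf, h, hh.2.2, k, hk.2.2.2.2, hff, hhh, hh.2.1, hh.1, hk.2.2.2.1, hk.2.2.1, hk.2.1,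
    hk.1⟩

/-- One conjugate pair and a second one which may be self-conjugate. -/
theorem two_pairs (A : Finset ℤ) (F : ℤ) (hA : ∀ a ∈ A, F - a ∈ A) (hc : 3 ≤ A.card) :
    ∃ f ∈ A, ∃ h ∈ A, f ≠ F - f ∧ h ≠ f ∧ h ≠ F - f := by
  obtain ⟨f, hf, hff⟩ := exists_ne_conj (B := A) F (by omega)
  have h1 := card_erase_two A f (F - f)
  have h3 : 0 < ((A.erase f).erase (F - f)).card := by omega
  obtain ⟨k, hk⟩ := Finset.card_pos.1 h3
  simp only [Finset.mem_erase] at hk
  exact ⟨f, hf, k, hk.2.2, hff, hk.2.1, hk.1⟩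

/-- If `F` works for all generators then it is the largest pseudo-Frobenius number. Let `g m` be the smallest
generator. `F - q + g m` is a member. If `F < q` it is `< g m`, so it is `0` (a nonzero member is at least
`g m`), so `q = F + g m` is a member, a contradiction. -/
theorem max_of_const {g : Fin 5 → ℕ} (hg : MinGen g) {F : ℤ} (hF : IsPF g F)
    (hN : ∀ i, ∀ q, IsPF g q → Mem g (F + g i - q)) {q : ℤ} (hq : IsPF g q) : q ≤ F := by
  by_contra hc
  push Not at hc
  obtain ⟨m, hm⟩ := exists_min_gen g
  have h1 : F + g m - q = 0 := by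
    refine mem_small (hN m q hq) fun j _ => ?_
    have h2 : (g m : ℤ) ≤ g j := by exact_mod_cast hm j
    omega
  have h3 : F + g m = q := by omega
  exact hq.nmem (h3 ▸ hF.add m)

/-- If `F` works for all generators then the other pseudo-Frobenius numbers are closed under `F - ·`:
positivity is `max_of_const`; `F - q` is no member by `pf_diff`; the rest is `hN`. -/
theorem closed_of_const {g : Fin 5 → ℕ} (hg : MinGen g) {F : ℤ} (hF : IsPF g F)
    (hN : ∀ i, ∀ q, IsPF g q → Mem g (F + g i - q)) {q : ℤ} (hq : IsPF g q) (hne : q ≠ F) :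
    IsPF g (F - q) := by
  have h1 := max_of_const hg hF hN hq
  refine ⟨by omega, pf_diff hF hq (Ne.symm hne), fun i => ?_⟩
  have h2 := hN i q hq
  have h3 : F - q + g i = F + g i - q := by ring
  rw [h3]
  exact h2

/-- The `4+1` case. Put `δ = P - P' = g i4 - g i0`.
First, for a pseudo-Frobenius number `q ≠ P, P'`, the number `a = P' + g i4 - q = P + g i0 - q` is a nonzero
member (if `a = 0` then `q = P + g i0` is a member). No factorization of `a` contains `i0` or `i4`
(`a - g i0 = P - q`, `a - g i4 = P' - q`, `pf_diff`). So some `m ≠ i0, i4` has `a - g m` a member, and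
`δ + g m = P + g m - P'` is a member by `hN`. So `P + g i4 - q = a + δ = (a - g m) + (δ + g m)` is a
member (*).
If `δ + g i4` were a member then `P` would work for all `i` and all `q`, against `hnot`: for `i ≠ i4` use
`hN`; for `i = i4` use (*) if `q ≠ P, P'`, `mem_gen` if `q = P`, and `δ + g i4` if `q = P'`.
Second part: by `hN` and (*) `P - q + g i` is a member for all `i`. `P - q` is not a member by
`pf_diff`. It is positive: let `g m` be the smallest generator; if `P - q ≤ 0` then `P - q < 0`, the member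
`P - q + g m` is `< g m`, so it is `0` and `q = P + g m` is a member. Last, `P - q = P'` means `q = δ`, but
then `δ + g i4` is a member, excluded by the first part. -/
theorem four_one {g : Fin 5 → ℕ} (hg : MinGen g) {i0 i4 : Fin 5} (hi : i0 ≠ i4) {P P' : ℤ}
    (hP : IsPF g P) (hP' : IsPF g P') (hne : P' ≠ P)
    (hw : P' + g i4 = P + g i0)
    (hN : ∀ i, i ≠ i4 → ∀ q, IsPF g q → Mem g (P + g i - q))
    (hN4 : ∀ q, IsPF g q → Mem g (P' + g i4 - q))
    (hnot : ¬ ∀ i, ∀ q, IsPF g q → Mem g (P + g i - q)) :
    ¬ Mem g (P - P' + g i4) ∧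
      (∀ q, IsPF g q → q ≠ P → q ≠ P' → IsPF g (P - q) ∧ P - q ≠ P') := by
  have star : ∀ q, IsPF g q → q ≠ P → q ≠ P' → Mem g (P + g i4 - q) := by
    intro q hq hqP hqP'
    have ha := hN4 q hq
    have ha0 : P' + g i4 - q ≠ 0 := by
      intro h0
      have h1 : P + g i0 = q := by omega
      exact hq.nmem (h1 ▸ hP.add i0)
    obtain h0 | ⟨m, hm⟩ := mem_cases ha
    · exact absurd h0 ha0
    have hm4 : m ≠ i4 := by
      rintro rfl
      have h1 : P' + g m - q - g m = P' - q := by ring
      rw [h1] at hm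
      exact pf_diff hP' hq (Ne.symm hqP') hm
    have h2 := hN m hm4 P' hP'
    have h3 := mem_add hm h2
    have h4 : P' + g i4 - q - g m + (P + g m - P') = P + g i4 - q := by ring
    rw [h4] at h3
    exact h3
  have first : ¬ Mem g (P - P' + g i4) := by
    intro hmem
    refine hnot fun i q hq => ?_
    by_cases hi4 : i = i4
    · subst hi4
      by_cases hqP : q = P
      · subst hqP
        have h1 : q + g i - q = g i := by ring
        rw [h1]
        exact mem_gen g i
      · by_cases hqP' : q = P'
        · subst hqP'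
          have h1 : P + g i - q = P - q + g i := by ring
          rw [h1]
          exact hmem
        · exact star q hq hqP hqP'
    · exact hN i hi4 q hq
  refine ⟨first, fun q hq hqP hqP' => ?_⟩
  have hall : ∀ i, Mem g (P + g i - q) := by
    intro i
    by_cases hi4 : i = i4
    · subst hi4
      exact star q hq hqP hqP'
    · exact hN i hi4 q hq
  have hpos : 0 < P - q := by
    by_contra hc
    obtain ⟨m, hm⟩ := exists_min_gen g
    have h1 : P + g m - q = 0 := by
      refine mem_small (hall m) fun j _ => ?_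
      have h2 : (g m : ℤ) ≤ g j := by exact_mod_cast hm j
      omega
    have h3 : P + g m = q := by omega
    exact hq.nmem (h3 ▸ hP.add m)
  refine ⟨⟨hpos, pf_diff hP hq (Ne.symm hqP), fun i => ?_⟩, ?_⟩
  · have h3 : P - q + g i = P + g i - q := by ring
    rw [h3]
    exact hall i
  · intro h
    apply first
    have h1 : P - P' + g i4 = q + g i4 := by omega
    rw [h1]
    exact hq.add i4

end Pool.Agent.NG5
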