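import Pool.Agent.NG5.Bridge
import Pool.Agent.NG5.Genus
import Pool.Agent.NG5.Pairs
import Pool.Agent.NG5.NGFacts

/-!
# The theorem from the three core statements  (task T5)
-/

set_option autoImplicit false

namespace Pool.Agent.NG5

open Finset

/-- no almost symmetric semigroup with three conjugate pairs -/
def AScore : Prop := ∀ g : Fin 5 → ℕ, MinGen g → ∀ F f h k : ℤ, IsPF g F → IsPF g f → IsPF g (F - f) →
    IsPF g h → IsPF g (F - h) → IsPF g k → IsPF g (F - k) →
    f ≠ F - f → h ≠ F - h → h ≠ f → h ≠ F - f → k ≠ f → k ≠ F - f → k ≠ h → k ≠ F - h → False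

/-- the nonconstant case -/
def NGcore : Prop := ∀ (g : Fin 5 → ℕ) (q : Fin 5 → ℤ) (idx : Fin 5 → Fin 5), NGData g q idx →
    (∃ i j, idx i ≠ idx j) →
    ∃ i0 i4 : Fin 5, i0 ≠ i4 ∧ (∀ i, i ≠ i4 → idx i = idx i0) ∧ idx i4 ≠ idx i0 ∧
      q (idx i4) + g i4 = q (idx i0) + g i0

/-- the case `4+1` -/
def S41core : Prop := ∀ g : Fin 5 → ℕ, MinGen g → ∀ i0 i4 : Fin 5, i0 ≠ i4 → ∀ P P' f h : ℤ,
    IsPF g P → IsPF g P' → IsPF g f → IsPF g (P - f) → IsPF g h → IsPF g (P - h) →
    P' + g i4 = P + g i0 → P' ≠ P →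
    f ≠ P - f → h ≠ f → h ≠ P - f → f ≠ P' → P - f ≠ P' → h ≠ P' → P - h ≠ P' →
    (∀ i, i ≠ i0 → i ≠ i4 → Mem g (P - P' + g i)) → ¬ Mem g (P - P' + g i4) → False

/-- Let `g` be as in `bridge`. `Sᶜ` is nonempty (else `S = ℕ`, with one minimal generator only; or: `g l = 1`
has to be avoided, e.g. `1 ∈ S` makes all minimal generators equal to `1`). The set `PF` of pseudo-Frobenius
numbers is finite (gaps). Let `F = sSup Sᶜ` (in `PF` by `sSup_pf`).

(A) Suppose some pseudo-Frobenius number `P` works for all `i`: `∀ i q, IsPF g q → Mem g (P + g i - q)`.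
By `max_of_const` it is the largest one, so `P = F`. `closed_of_const` gives the hypothesis of `genus`, so
`2 g = F + t`, `t = PF.ncard`; and if `t ≥ 6`, then `three_pairs` for `PF \ {F}` and `hAS` give a contradiction.

(B) Otherwise `t ≤ 4`. Suppose `t ≥ 5`. For each `i` choose `p i` in `PF` with
`∀ q, IsPF g q → Mem g (p i + g i - q)`. Not all `p i` are equal, by the assumption of (B). Choose five different
elements `q 0, ..., q 4` of `PF` among which are all `p i` (the range of `p` has at most five elements), so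
`p i = q (idx i)`. `hNG` gives `i0, i4`. With `P = p i0`, `P' = p i4` we have the hypotheses of `four_one`.
The set `PF \ {P, P'}` has at least three elements and is closed under `P - ·` (`four_one`; `P - q ≠ P` as
`q > 0`), so `two_pairs` and `h41` give a contradiction. -/
theorem assembly (hAS : AScore) (hNG : NGcore) (h41 : S41core) :
    ∀ S : AddSubmonoid ℕ, ((S : Set ℕ)ᶜ).Finite →
      Set.ncard {n : ℕ | n ∈ S ∧ n ≠ 0 ∧
        ∀ a ∈ S, ∀ b ∈ S, a + b = n → a = 0 ∨ b = 0} = 5 →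
      (∀ n ∈ S, n ≠ 0 → (∀ a ∈ S, ∀ b ∈ S, a + b = n → a = 0 ∨ b = 0) →
        ∃ f : ℕ, (f ∉ S ∧ ∀ s ∈ S, s ≠ 0 → f + s ∈ S) ∧
          ∀ f' : ℕ, (f' ∉ S ∧ ∀ s ∈ S, s ≠ 0 → f' + s ∈ S) →
            ∃ k ∈ S, (k : ℤ) = (n : ℤ) + (f : ℤ) - (f' : ℤ)) →
      Set.ncard {f : ℕ | f ∉ S ∧ ∀ s ∈ S, s ≠ 0 → f + s ∈ S} ≤ 5 ∧
      (Set.ncard {f : ℕ | f ∉ S ∧ ∀ s ∈ S, s ≠ 0 → f + s ∈ S} = 5 →
        2 * Set.ncard ((S : Set ℕ)ᶜ) = sSup ((S : Set ℕ)ᶜ) + 5) := by
  classical
  intro S hfin h5 hnG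
  obtain ⟨g, hg, hmem, hgen, hpf⟩ := bridge S h5
  set PF : Set ℕ := {f : ℕ | f ∉ S ∧ ∀ s ∈ S, s ≠ 0 → f + s ∈ S} with hPFdef
  have hPFfin : PF.Finite := hfin.subset fun f hf => hf.1
  have hpf' : ∀ f : ℕ, f ∈ PF ↔ IsPF g f := hpf
  -- the pseudo-Frobenius numbers as a finite set of integers
  set Z : Finset ℤ := hPFfin.toFinset.map Nat.castEmbedding with hZdef
  have hZ : ∀ z : ℤ, z ∈ Z ↔ IsPF g z := by
    intro z
    rw [hZdef, Finset.mem_map]
    constructor
    · rintro ⟨n, hn, rfl⟩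
      exact (hpf' n).1 ((Set.Finite.mem_toFinset _).1 hn)
    · intro hz
      refine ⟨z.toNat, ?_, ?_⟩
      · rw [Set.Finite.mem_toFinset, hpf', Int.toNat_of_nonneg hz.pos.le]
        exact hz
      · exact Int.toNat_of_nonneg hz.pos.le
  have hZcard : Z.card = PF.ncard := by
    rw [hZdef, Finset.card_map, Set.ncard_eq_toFinset_card _ hPFfin]
  -- the nearly Gorenstein condition
  have hng : ∀ i, ∃ P, IsPF g P ∧ ∀ q, IsPF g q → Mem g (P + g i - q) := by
    intro i
    obtain ⟨h1, h2, h3⟩ := hgen i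
    obtain ⟨f, hf, hf'⟩ := hnG (g i) h1 h2 h3
    refine ⟨f, (hpf f).1 hf, fun q hq => ?_⟩
    have hqn : ((q.toNat : ℕ) : ℤ) = q := Int.toNat_of_nonneg hq.pos.le
    obtain ⟨k, hk, hke⟩ := hf' q.toNat ((hpf q.toNat).2 (by rw [hqn]; exact hq))
    have h4 := (hmem k).1 hk
    rw [hke, hqn] at h4
    rwa [add_comm (f : ℤ)]
  by_cases hA : ∃ P, IsPF g P ∧ ∀ i, ∀ q, IsPF g q → Mem g (P + g i - q)
  · -- the constant case
    obtain ⟨P, hP, hN⟩ := hA
    have hne : ((S : Set ℕ)ᶜ).Nonempty := by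
      refine ⟨P.toNat, fun h => ?_⟩
      have h1 := (hmem P.toNat).1 h
      rw [Int.toNat_of_nonneg hP.pos.le] at h1
      exact hP.nmem h1
    obtain ⟨hF, hFmax⟩ := sSup_pf S hfin hne
    set F : ℕ := sSup ((S : Set ℕ)ᶜ) with hFdef
    have hFpf : IsPF g F := (hpf F).1 hF
    have hle : ∀ f : ℕ, f ∉ S → f ≤ F := fun f hf => by
      by_contra hlt
      exact hf (hFmax f (not_le.1 hlt))
    have hPF : P = F := by
      apply le_antisymm
      · have h1 : P.toNat ∉ S := fun h => by
          have h2 := (hmem P.toNat).1 h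
          rw [Int.toNat_of_nonneg hP.pos.le] at h2
          exact hP.nmem h2
        have h2 := hle _ h1
        have h3 : ((P.toNat : ℕ) : ℤ) = P := Int.toNat_of_nonneg hP.pos.le
        rw [← h3]
        exact_mod_cast h2
      · exact max_of_const hg hP hN hFpf
    have hcl : ∀ q, IsPF g q → q ≠ F → IsPF g (F - q) := by
      intro q hq hqF
      have h1 := closed_of_const hg hP hN hq (by rw [hPF]; exact hqF)
      rwa [hPF] at h1
    have hgenus := genus S hfin hne (by
      intro f hf hfF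
      have h1 : f ≤ F := hle f hf.1
      have h2 : (f : ℤ) ≠ F := by exact_mod_cast hfF
      have h3 := hcl f ((hpf f).1 hf) h2
      have h4 : ((F - f : ℕ) : ℤ) = (F : ℤ) - f := by
        rw [Nat.cast_sub h1]
      rw [← h4] at h3
      exact ⟨h1, (hpf (F - f)).2 h3⟩)
    have ht : PF.ncard ≤ 5 := by
      by_contra hcon
      rw [not_le, ← hZcard] at hcon
      have hFZ : (F : ℤ) ∈ Z := (hZ _).2 hFpf
      have hc : 5 ≤ (Z.erase F).card := by
        rw [Finset.card_erase_of_mem hFZ]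
        omega
      have hm : ∀ a, a ∈ Z.erase (F : ℤ) → IsPF g a ∧ IsPF g (F - a) := by
        intro a ha
        rw [Finset.mem_erase] at ha
        have h1 := (hZ a).1 ha.2
        exact ⟨h1, hcl a h1 ha.1⟩
      obtain ⟨f, hf, h, hh, k, hk, h1, h2, h3, h4, h5', h6, h7, h8⟩ :=
        three_pairs (Z.erase F) F (by
          intro a ha
          have h1 := hm a ha
          rw [Finset.mem_erase]
          refine ⟨?_, (hZ _).2 h1.2⟩
          have := h1.1.pos
          omega) hc
      exact hAS g hg F f h k hFpf (hm f hf).1 (hm f hf).2 (hm h hh).1 (hm h hh).2 (hm k hk).1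
        (hm k hk).2 h1 h2 h3 h4 h5' h6 h7 h8
    refine ⟨ht, fun ht5 => ?_⟩
    rw [hgenus]
    exact congrArg (fun t => F + t) ht5
  · -- the nonconstant case
    have ht : PF.ncard ≤ 4 := by
      by_contra hcon
      rw [not_le, ← hZcard] at hcon
      choose p hp hpN using hng
      have hsub : Finset.univ.image p ⊆ Z := by
        intro z hz
        rw [Finset.mem_image] at hz
        obtain ⟨i, -, rfl⟩ := hz
        exact (hZ _).2 (hp i)
      have hc1 : (Finset.univ.image p).card ≤ 5 := by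
        refine Finset.card_image_le.trans ?_
        simp
      obtain ⟨T, hT1, hT2, hT⟩ := Finset.exists_subsuperset_card_eq hsub hc1 hcon
      let e := T.equivFinOfCardEq hT
      let q : Fin 5 → ℤ := fun k => (e.symm k : ℤ)
      have hpT : ∀ i, p i ∈ T := fun i => hT1 (Finset.mem_image_of_mem p (Finset.mem_univ i))
      let idx : Fin 5 → Fin 5 := fun i => e ⟨p i, hpT i⟩
      have hqi : ∀ i, q (idx i) = p i := by
        intro i
        change ((e.symm (e ⟨p i, hpT i⟩) : T) : ℤ) = p i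
        rw [Equiv.symm_apply_apply]
      have hqinj : Function.Injective q := Subtype.val_injective.comp e.symm.injective
      have D : NGData g q idx :=
        { min := hg
          inj := hqinj
          pf := fun k => (hZ _).1 (hT2 (e.symm k).2)
          ng := fun i k => by
            rw [hqi]
            exact hpN i _ ((hZ _).1 (hT2 (e.symm k).2)) }
      have hnc : ∃ i j, idx i ≠ idx j := by
        by_contra hall
        push Not at hall
        apply hA
        refine ⟨p 0, hp 0, fun i z hz => ?_⟩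
        have h1 : p 0 = p i := by rw [← hqi 0, ← hqi i, hall 0 i]
        rw [h1]
        exact hpN i z hz
      obtain ⟨i0, i4, hi, hidx, hidx4, hw⟩ := hNG g q idx D hnc
      rw [hqi, hqi] at hw
      have hne : p i4 ≠ p i0 := by
        intro h
        apply hidx4
        apply hqinj
        rw [hqi, hqi, h]
      have hN : ∀ i, i ≠ i4 → ∀ z, IsPF g z → Mem g (p i0 + g i - z) := by
        intro i hi4 z hz
        have h1 : p i0 = p i := by rw [← hqi i0, ← hqi i, hidx i hi4]
        rw [h1]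
        exact hpN i z hz
      obtain ⟨hnm, hcl⟩ := four_one hg hi (hp i0) (hp i4) hne hw hN (hpN i4)
        (fun h => hA ⟨p i0, hp i0, h⟩)
      have hc : 3 ≤ ((Z.erase (p i0)).erase (p i4)).card := by
        have h1 : p i0 ∈ Z := (hZ _).2 (hp i0)
        have h2 : p i4 ∈ Z.erase (p i0) := Finset.mem_erase.2 ⟨hne, (hZ _).2 (hp i4)⟩
        rw [Finset.card_erase_of_mem h2, Finset.card_erase_of_mem h1]
        omega
      have hm : ∀ a, a ∈ (Z.erase (p i0)).erase (p i4) → IsPF g a ∧ a ≠ p i4 ∧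
          IsPF g (p i0 - a) ∧ p i0 - a ≠ p i4 := by
        intro a ha
        rw [Finset.mem_erase, Finset.mem_erase] at ha
        have h1 := (hZ a).1 ha.2.2
        have h2 := hcl a h1 ha.2.1 ha.1
        exact ⟨h1, ha.1, h2.1, h2.2⟩
      obtain ⟨f, hf, h, hh, h1, h2, h3⟩ := two_pairs ((Z.erase (p i0)).erase (p i4)) (p i0) (by
          intro a ha
          have h1 := hm a ha
          rw [Finset.mem_erase, Finset.mem_erase]
          refine ⟨h1.2.2.2, ?_, (hZ _).2 h1.2.2.1⟩
          have := h1.1.pos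
          omega) hc
      refine h41 g hg i0 i4 hi (p i0) (p i4) f h (hp i0) (hp i4) (hm f hf).1 (hm f hf).2.2.1
        (hm h hh).1 (hm h hh).2.2.1 hw hne h1 h2 h3 (hm f hf).2.1 (hm f hf).2.2.2 (hm h hh).2.1
        (hm h hh).2.2.2 ?_ hnm
      intro i _ hi4
      have h4 := hN i hi4 (p i4) (hp i4)
      have h5' : p i0 + g i - p i4 = p i0 - p i4 + g i := by ring
      rwa [h5'] at h4
    refine ⟨by omega, fun ht5 => ?_⟩
    have h6 : PF.ncard = 5 := ht5
    omega

end Pool.Agent.NG5
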