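import Mathlib

/-!
Basic notions for the study of numerical semigroups with five minimal generators,
phrased through the vector `g` of generators.
-/

set_option autoImplicit false

namespace Pool.Agent.NG5

open Finset

/-- The integer `z` is a combination of the `g i` with natural number coefficients. -/
def Mem (g : Fin 5 → ℕ) (z : ℤ) : Prop :=
  ∃ y : Fin 5 → ℕ, ((∑ i, y i * g i : ℕ) : ℤ) = z

/-- No `g l` has another factorization than the trivial one. -/
def MinGen (g : Fin 5 → ℕ) : Prop :=
  ∀ l, ∀ y : Fin 5 → ℕ, ∑ i, y i * g i = g l → y = Pi.single l 1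

/-- `f` is a pseudo-Frobenius number of the semigroup generated by the `g i`. -/
structure IsPF (g : Fin 5 → ℕ) (f : ℤ) : Prop where
  pos : 0 < f
  nmem : ¬ Mem g f
  add : ∀ i, Mem g (f + g i)

end Pool.Agent.NG5
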