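import Pool.Agent.NG5.Mem

/-!
# From a numerical semigroup to its generators  (task T1b)
-/

set_option autoImplicit false

namespace Pool.Agent.NG5

open Finset

/-- Enumerate the five minimal generators by `g : Fin 5 → ℕ` (injective). Every element of `S` is a sum of
minimal generators (strong induction), so `n ∈ S ↔ Mem g n`. `MinGen g`: if `∑ y i * g i = g l` then exactly
one `y i` is nonzero and equal to `1` (otherwise `g l` is a sum of two nonzero elements of `S`), and `i = l`
by injectivity. For the last part: a nonzero element of `S` is `g i + s` with `s ∈ S`, and `f ∉ S` implies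
`0 < f` as `0 ∈ S`. (`hfin` is not needed, and may be dropped from the proof.) -/
theorem bridge (S : AddSubmonoid ℕ)
    (h5 : Set.ncard {n : ℕ | n ∈ S ∧ n ≠ 0 ∧
        ∀ a ∈ S, ∀ b ∈ S, a + b = n → a = 0 ∨ b = 0} = 5) :
    ∃ g : Fin 5 → ℕ, MinGen g ∧ (∀ n : ℕ, n ∈ S ↔ Mem g n) ∧
      (∀ i, g i ∈ S ∧ g i ≠ 0 ∧ ∀ a ∈ S, ∀ b ∈ S, a + b = g i → a = 0 ∨ b = 0) ∧
      (∀ f : ℕ, (f ∉ S ∧ ∀ s ∈ S, s ≠ 0 → f + s ∈ S) ↔ IsPF g f) := by
  set A : Set ℕ := {n : ℕ | n ∈ S ∧ n ≠ 0 ∧
        ∀ a ∈ S, ∀ b ∈ S, a + b = n → a = 0 ∨ b = 0} with hA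
  have hfin : A.Finite := Set.finite_of_ncard_ne_zero (by rw [h5]; norm_num)
  have hcard : hfin.toFinset.card = 5 := by
    rw [← Set.ncard_eq_toFinset_card A hfin]; exact h5
  let e : hfin.toFinset ≃ Fin 5 := Finset.equivFinOfCardEq hcard
  let g : Fin 5 → ℕ := fun i => (e.symm i : ℕ)
  have gA : ∀ i, g i ∈ A := fun i => by
    have := (e.symm i).2
    rwa [Set.Finite.mem_toFinset] at this
  have ginj : Function.Injective g := fun i j h => by
    have : e.symm i = e.symm j := Subtype.ext h
    exact e.symm.injective this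
  have gsurj : ∀ n ∈ A, ∃ i, g i = n := fun n hn => by
    refine ⟨e ⟨n, by rwa [Set.Finite.mem_toFinset]⟩, ?_⟩
    simp [g]
  have mem1 : ∀ n : ℕ, n ∈ S → ∃ y : Fin 5 → ℕ, ∑ i, y i * g i = n := by
    intro n
    induction n using Nat.strong_induction_on with
    | _ n ih =>
      intro hn
      by_cases h0 : n = 0
      · exact ⟨0, by simp [h0]⟩
      by_cases hirr : ∀ a ∈ S, ∀ b ∈ S, a + b = n → a = 0 ∨ b = 0
      · obtain ⟨i, hi⟩ := gsurj n ⟨hn, h0, hirr⟩
        refine ⟨Pi.single i 1, ?_⟩
        rw [Finset.sum_eq_single i]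
        · simp [hi]
        · intro b _ hb
          simp [Pi.single_eq_of_ne hb]
        · simp
      · push Not at hirr
        obtain ⟨a, ha, b, hb, hab, ha0, hb0⟩ := hirr
        obtain ⟨y, hy⟩ := ih a (by omega) ha
        obtain ⟨z, hz⟩ := ih b (by omega) hb
        refine ⟨fun i => y i + z i, ?_⟩
        simp only [add_mul, Finset.sum_add_distrib, hy, hz, hab]
  have mem2 : ∀ y : Fin 5 → ℕ, ∑ i, y i * g i ∈ S := by
    intro y
    refine sum_mem fun i _ => ?_
    have := nsmul_mem (gA i).1 (y i)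
    simpa using this
  have memiff : ∀ n : ℕ, n ∈ S ↔ Mem g n := by
    intro n
    constructor
    · intro hn
      obtain ⟨y, hy⟩ := mem1 n hn
      exact ⟨y, by rw [hy]⟩
    · rintro ⟨y, hy⟩
      have hy' : ∑ i, y i * g i = n := by exact_mod_cast hy
      rw [← hy']
      exact mem2 y
  have gpos : ∀ i, 0 < g i := fun i => Nat.pos_of_ne_zero (gA i).2.1
  refine ⟨g, ?_, memiff, fun i => gA i, ?_⟩
  · intro l y hy
    have hex : ∃ j, y j ≠ 0 := by
      by_contra hcon
      push Not at hcon
      have : ∑ i, y i * g i = 0 := by simp [hcon]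
      have := gpos l
      omega
    obtain ⟨j, hj⟩ := hex
    have hsplit : g j + ∑ i, (y i - (Pi.single j 1 : Fin 5 → ℕ) i) * g i = g l := by
      have h1 : ∑ i, y i * g i = ∑ i, (Pi.single j 1 : Fin 5 → ℕ) i * g i +
          ∑ i, (y i - (Pi.single j 1 : Fin 5 → ℕ) i) * g i := by
        rw [← Finset.sum_add_distrib]
        refine Finset.sum_congr rfl fun i _ => ?_
        rw [← add_mul]
        congr 1
        by_cases hij : i = j
        · subst hij
          rw [Pi.single_eq_same]
          omega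
        · rw [Pi.single_eq_of_ne hij]
          omega
      have h2 : ∑ i, (Pi.single j 1 : Fin 5 → ℕ) i * g i = g j := by
        rw [Finset.sum_eq_single j]
        · simp
        · intro b _ hb
          simp [Pi.single_eq_of_ne hb]
        · simp
      omega
    have hz := (gA l).2.2 (g j) (gA j).1 _ (mem2 _) hsplit
    have hz' : ∑ i, (y i - (Pi.single j 1 : Fin 5 → ℕ) i) * g i = 0 := by
      rcases hz with h | h
      · exact absurd h (gpos j).ne'
      · exact h
    rw [hz', add_zero] at hsplit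
    have hjl : j = l := ginj hsplit
    subst hjl
    funext i
    have hi := (Finset.sum_eq_zero_iff.mp hz') i (Finset.mem_univ i)
    have hi' : y i - (Pi.single j 1 : Fin 5 → ℕ) i = 0 := by
      rcases Nat.mul_eq_zero.mp hi with h | h
      · exact h
      · exact absurd h (gpos i).ne'
    by_cases hij : i = j
    · subst hij
      rw [Pi.single_eq_same] at hi' ⊢
      omega
    · rw [Pi.single_eq_of_ne hij] at hi' ⊢
      omega
  · intro f
    constructor
    · rintro ⟨hf, hadd⟩
      refine ⟨?_, fun h => hf ((memiff f).2 h), fun i => ?_⟩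
      · have : f ≠ 0 := fun h => hf (h ▸ S.zero_mem)
        exact_mod_cast Nat.pos_of_ne_zero this
      · have := (memiff (f + g i)).1 (hadd (g i) (gA i).1 (gpos i).ne')
        exact_mod_cast this
    · intro h
      refine ⟨fun hf => h.nmem ((memiff f).1 hf), fun s hs hs0 => ?_⟩
      rcases mem_cases ((memiff s).1 hs) with h0 | ⟨i, hi⟩
      · exact absurd (by exact_mod_cast h0) hs0
      · have h1 := mem_add (h.add i) hi
        have h2 : (f : ℤ) + g i + (s - g i) = ((f + s : ℕ) : ℤ) := by push_cast; ring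
        rw [h2] at h1
        exact (memiff (f + s)).2 h1

end Pool.Agent.NG5
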