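import Pool.Agent.NG5.Basic

/-!
# Basic lemmas on `Mem`, `MinGen`, `IsPF`  (task T1a)
-/

set_option autoImplicit false

namespace Pool.Agent.NG5

open Finset

theorem sum_single_gen (g : Fin 5 → ℕ) (i : Fin 5) :
    ∑ j, (Pi.single i 1 : Fin 5 → ℕ) j * g j = g i := by
  rw [Finset.sum_eq_single i]
  · rw [Pi.single_eq_same, one_mul]
  · intro j _ hj
    rw [Pi.single_eq_of_ne hj, zero_mul]
  · intro h
    exact absurd (Finset.mem_univ i) h

theorem sum_add_gen (g y y' : Fin 5 → ℕ) :
    ∑ j, (y + y') j * g j = ∑ j, y j * g j + ∑ j, y' j * g j := by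
  rw [← Finset.sum_add_distrib]
  exact Finset.sum_congr rfl fun j _ => by rw [Pi.add_apply, add_mul]

theorem mem_zero (g : Fin 5 → ℕ) : Mem g 0 := ⟨0, by simp⟩

theorem mem_add {g : Fin 5 → ℕ} {a b : ℤ} (ha : Mem g a) (hb : Mem g b) : Mem g (a + b) := by
  obtain ⟨y, hy⟩ := ha
  obtain ⟨y', hy'⟩ := hb
  refine ⟨y + y', ?_⟩
  rw [sum_add_gen, Nat.cast_add, hy, hy']

theorem mem_gen (g : Fin 5 → ℕ) (i : Fin 5) : Mem g (g i) :=
  ⟨Pi.single i 1, by rw [sum_single_gen]⟩

theorem mem_nonneg {g : Fin 5 → ℕ} {a : ℤ} (ha : Mem g a) : 0 ≤ a := by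
  obtain ⟨y, hy⟩ := ha
  rw [← hy]
  exact Int.natCast_nonneg _

/-- the same, for a given factorization -/
theorem mem_sub_of_pos {g : Fin 5 → ℕ} {a : ℤ} {y : Fin 5 → ℕ}
    (hy : ((∑ i, y i * g i : ℕ) : ℤ) = a) {i : Fin 5} (hi : y i ≠ 0) : Mem g (a - g i) := by
  have h : y = Function.update y i (y i - 1) + Pi.single i 1 := by
    funext j
    rw [Pi.add_apply]
    rcases eq_or_ne j i with rfl | hj
    · rw [Function.update_self, Pi.single_eq_same]
      omega
    · rw [Function.update_of_ne hj, Pi.single_eq_of_ne hj, add_zero]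
  refine ⟨Function.update y i (y i - 1), ?_⟩
  have h2 : ∑ j, y j * g j = ∑ j, Function.update y i (y i - 1) j * g j + g i := by
    conv_lhs => rw [h]
    rw [sum_add_gen, sum_single_gen]
  rw [← hy, h2]
  push_cast
  ring

/-- a member is zero or has a generator in one of its factorizations -/
theorem mem_cases {g : Fin 5 → ℕ} {a : ℤ} (ha : Mem g a) : a = 0 ∨ ∃ i, Mem g (a - g i) := by
  obtain ⟨y, hy⟩ := ha
  by_cases h : ∃ i, y i ≠ 0
  · obtain ⟨i, hi⟩ := h
    exact Or.inr ⟨i, mem_sub_of_pos hy hi⟩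
  · left
    push Not at h
    rw [← hy]
    simp [h]

/-- if `g l = 0` then the factorization `0` of `g l` contradicts `MinGen` -/
theorem gen_pos {g : Fin 5 → ℕ} (hg : MinGen g) (i : Fin 5) : 0 < g i := by
  rcases Nat.eq_zero_or_pos (g i) with h | h
  · exfalso
    have h1 := hg i 0 (by simp [h])
    have h2 := congrFun h1 i
    simp at h2
  · exact h

theorem gen_inj {g : Fin 5 → ℕ} (hg : MinGen g) : Function.Injective g := by
  intro i j hij
  by_contra hne
  have h1 := hg i (Pi.single j 1) (by rw [sum_single_gen, hij])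
  have h2 := congrFun h1 i
  rw [Pi.single_eq_same, Pi.single_eq_of_ne hne] at h2
  exact absurd h2 (by norm_num)

/-- `g i = a + b` with `a, b` members forces one of them to be zero -/
theorem gen_irred {g : Fin 5 → ℕ} (hg : MinGen g) {i : Fin 5} {a b : ℤ} (ha : Mem g a) (hb : Mem g b)
    (h : a + b = g i) : a = 0 ∨ b = 0 := by
  obtain ⟨y, hy⟩ := ha
  obtain ⟨y', hy'⟩ := hb
  have h1 : ∑ j, (y + y') j * g j = g i := by
    rw [sum_add_gen]
    rw [← hy, ← hy'] at h
    exact_mod_cast h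
  have h2 := hg i _ h1
  have h3 : ∀ j, j ≠ i → y j = 0 ∧ y' j = 0 := by
    intro j hj
    have h4 := congrFun h2 j
    rw [Pi.add_apply, Pi.single_eq_of_ne hj] at h4
    omega
  have h5 : y i + y' i = 1 := by
    have h4 := congrFun h2 i
    rwa [Pi.add_apply, Pi.single_eq_same] at h4
  rcases Nat.eq_zero_or_pos (y i) with h6 | h6
  · left
    have h7 : ∀ j, y j = 0 := by
      intro j
      rcases eq_or_ne j i with rfl | hj
      · exact h6
      · exact (h3 j hj).1
    rw [← hy]
    simp [h7]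
  · right
    have h7 : ∀ j, y' j = 0 := by
      intro j
      rcases eq_or_ne j i with rfl | hj
      · omega
      · exact (h3 j hj).2
    rw [← hy']
    simp [h7]

theorem pf_add_mem {g : Fin 5 → ℕ} {f s : ℤ} (hf : IsPF g f) (hs : Mem g s) (h0 : s ≠ 0) :
    Mem g (f + s) := by
  rcases mem_cases hs with h | ⟨i, hi⟩
  · exact absurd h h0
  · have h := mem_add (hf.add i) hi
    have e : f + (g i : ℤ) + (s - g i) = f + s := by ring
    rwa [e] at h

/-- otherwise `f = f' + s` with a member `s ≠ 0`, so `f` is a member by `pf_add_mem` -/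
theorem pf_diff {g : Fin 5 → ℕ} {f f' : ℤ} (hf : IsPF g f) (hf' : IsPF g f') (h : f ≠ f') :
    ¬ Mem g (f - f') := by
  intro hm
  have h1 := pf_add_mem hf' hm (sub_ne_zero.2 h)
  rw [add_sub_cancel] at h1
  exact hf.nmem h1

/-- There is a smallest generator. -/
theorem exists_min_gen (g : Fin 5 → ℕ) : ∃ i, ∀ j, g i ≤ g j := Finite.exists_min g

/-- A member `a` with `a < g j` for the generators `g j` (`j` outside a set of indices that cannot occur in
a factorization of `a`) is zero. -/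
theorem mem_small {g : Fin 5 → ℕ} {a : ℤ} (ha : Mem g a) (h : ∀ j, Mem g (a - g j) → a < g j) :
    a = 0 := by
  rcases mem_cases ha with h1 | ⟨i, hi⟩
  · exact h1
  · have h2 := h i hi
    have h3 := mem_nonneg hi
    omega

/-- Lexicographic maximality of a factorization, in the form in which it is used. -/
def LexMax (g : Fin 5 → ℕ) (y : Fin 5 → ℕ) : Prop :=
  ∀ y' : Fin 5 → ℕ, ∑ i, y' i * g i = ∑ i, y i * g i →
    ∀ k : Fin 5, (∀ t, t < k → y t ≤ y' t) → ¬ (y k < y' k)

/-- Every member has a lexicographically largest factorization (there are finitely many as `0 < g i`;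
take the largest one in the linear order `Lex (Fin 5 → ℕ)`, or maximize `∑ y i * M ^ (4 - i)`, `M` large). -/
theorem exists_lexMax {g : Fin 5 → ℕ} (hg : MinGen g) {z : ℤ} (hz : Mem g z) :
    ∃ y : Fin 5 → ℕ, ((∑ i, y i * g i : ℕ) : ℤ) = z ∧ LexMax g y := by
  obtain ⟨y₀, hy₀⟩ := hz
  obtain ⟨n, hn⟩ : ∃ n, n = ∑ i, y₀ i * g i := ⟨_, rfl⟩
  have hmem : ∀ y : Fin 5 → ℕ, ∑ i, y i * g i = n →
      y ∈ (Fintype.piFinset fun _ : Fin 5 => range (n + 1)).filter
        fun y => ∑ i, y i * g i = n := by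
    intro y hy
    rw [Finset.mem_filter, Fintype.mem_piFinset]
    refine ⟨fun i => ?_, hy⟩
    rw [Finset.mem_range]
    have h1 : y i * g i ≤ ∑ j, y j * g j :=
      Finset.single_le_sum (f := fun j => y j * g j) (fun j _ => Nat.zero_le _) (Finset.mem_univ i)
    have h2 : y i ≤ y i * g i := Nat.le_mul_of_pos_right _ (gen_pos hg i)
    omega
  obtain ⟨y, hyS, hmax⟩ := Finset.exists_max_image
    ((Fintype.piFinset fun _ : Fin 5 => range (n + 1)).filter fun y => ∑ i, y i * g i = n)
    (fun y => toLex y) ⟨y₀, hmem y₀ hn.symm⟩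
  rw [Finset.mem_filter] at hyS
  refine ⟨y, ?_, ?_⟩
  · rw [hyS.2, hn, hy₀]
  · intro y' hy' k hk hlt
    have h1 := hmax y' (hmem y' (hy'.trans hyS.2))
    obtain ⟨i, hi, hmin⟩ := WellFounded.has_min (wellFounded_lt (α := Fin 5))
      {i | y i < y' i} ⟨k, hlt⟩
    have hik : i ≤ k := not_lt.1 (hmin k hlt)
    have h2 : toLex y < toLex y' := by
      refine ⟨i, fun j hj => ?_, hi⟩
      have h3 : y j ≤ y' j := hk j (lt_of_lt_of_le hj hik)
      have h4 : ¬ (y j < y' j) := fun h => hmin j h hj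
      exact le_antisymm h3 (not_lt.1 h4)
    exact absurd h2 (not_lt.2 h1)

/-- The only factorization of a generator is the trivial one, so it is the lexicographically largest. -/
theorem lexMax_single {g : Fin 5 → ℕ} (hg : MinGen g) (i : Fin 5) : LexMax g (Pi.single i 1) := by
  intro y' hy' k _ hlt
  rw [sum_single_gen] at hy'
  have h := hg i y' hy'
  rw [h] at hlt
  exact absurd hlt (lt_irrefl _)

end Pool.Agent.NG5
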